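import Pool.Agent.Helper17.OD.GoalsGE

/-!
# HGT: transfer of a generic filter by the isomorphism of (P11)
-/

namespace Pool.Agent.Helper17.OD.PkHGT

open Set

/-- The image of a filter. -/
def img (F : FD) (p' q' : T) (G : Set T) : Set T :=
  {s | s ∈ F.P F.κ ∧ ∃ r ∈ G, F.Le F.κ r p' ∧ F.Le F.κ (Ei F p' q' F.κ r) s}

theorem dec_bdd {k : O} (hk : 0 < k) {c : T} (hc : c ∈ D (Iio k)) :
    ∃ b < k, dec c ⊆ D (Iio b) := by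
  by_cases h : (dec c).Nonempty
  · obtain ⟨x, b, φ, v, h1, -⟩ := h
    refine ⟨b, ?_, ?_⟩
    · rw [h1, pr_mem, ord_mem] at hc
      exact hc.1
    · rintro y ⟨b', φ', v', h1', -, hy, -⟩
      rw [h1] at h1'
      injection h1' with h2
      injection h2 with h3
      rw [h3]
      exact hy
  · exact ⟨0, hk, fun y hy => absurd ⟨y, hy⟩ h⟩

instance inst (F : FD) : SOM F.γ F.M F.M := F.g.m1

theorem sdLe (hPIM : G_PIM) (F : FD) {j : O} (hj : j ≤ F.κ) :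
    SD F.γ F.M F.M (fun e _ => e.fst ∈ D (Iio F.κ) ∧ e.snd ∈ D (Iio F.κ) ∧
      F.Le j e.fst e.snd) := by
  have h := (hPIM F).2.1
  have h1 := SD.app2 (R := fun t u => ∃ j ≤ F.κ, t = .ord j ∧ u.fst ∈ D (Iio F.κ) ∧
    u.snd ∈ D (Iio F.κ) ∧ F.Le j u.fst u.snd) h (ST.ordc (hj.trans_lt F.g.kg)) ST.id
  refine h1.congr fun e _ _ _ => ?_
  constructor
  · rintro ⟨j', _, h2, h3⟩
    injection h2 with h2
    rw [h2]
    exact h3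
  · exact fun h3 => ⟨j, hj, rfl, h3⟩

theorem sdE (hEIM : G_EIM) (F : FD) {p' q' : T} (hp : p' ∈ F.P F.κ) (hq : q' ∈ F.P F.κ)
    (hl : ∀ i < F.κ, ln p' i = ln q' i) {j : O} (hj : j ≤ F.κ) :
    SD F.γ F.M F.M (fun e _ => e.fst ∈ F.P j ∧ F.Le j e.fst p' ∧
      Ei F p' q' j e.fst = e.snd) := by
  have h := hEIM F p' hp q' hq hl
  have h1 := SD.app2 (R := fun t u => ∃ j ≤ F.κ, t = .ord j ∧ u.fst ∈ F.P j ∧
    F.Le j u.fst p' ∧ Ei F p' q' j u.fst = u.snd) h (ST.ordc (hj.trans_lt F.g.kg)) ST.id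
  refine h1.congr fun e _ _ _ => ?_
  constructor
  · rintro ⟨j', _, h2, h3⟩
    injection h2 with h2
    rw [h2]
    exact h3
  · exact fun h3 => ⟨j, hj, rfl, h3⟩

section

variable {F : FD} {p' q' : T}

theorem img_gen (hEIM : G_EIM) (hPRO : G_PRO) (hGNF : G_GNF) (hPBD : G_PBD)
    (hp : p' ∈ F.P F.κ) (hq : q' ∈ F.P F.κ) (hl : ∀ i < F.κ, ln p' i = ln q' i)
    (h1 : EiP F p' q' F.κ) (h2 : EiP F q' p' F.κ) {G : Set T} (hG : F.Gen G) (hpG : p' ∈ G) :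
    F.Gen (img F p' q' G) ∧ q' ∈ img F p' q' G := by
  obtain ⟨prefl, ptrans, -, -, -⟩ := hPRO F
  have hin : ∀ r ∈ G, F.Le F.κ r p' → Ei F p' q' F.κ r ∈ img F p' q' G := fun r hr hrp =>
    ⟨(h1.mem r (hG.sub hr) hrp).1, r, hr, hrp, prefl _ _⟩
  refine ⟨⟨⟨_, hin p' hpG (prefl _ _)⟩, fun s hs => hs.1, ?_, ?_, ?_⟩, hq, p', hpG, prefl _ _,
    (h1.mem p' hp (prefl _ _)).2⟩
  · rintro q ⟨-, r, hr, hrp, hle⟩ p hpP hqp
    exact ⟨hpP, r, hr, hrp, ptrans _ _ _ _ hle hqp⟩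
  · rintro s ⟨-, r, hr, hrp, hrs⟩ t ⟨-, r', hr', hrp', hrt⟩
    obtain ⟨u, hu, hur, hur'⟩ := hG.dir r hr r' hr'
    have hup : F.Le F.κ u p' := ptrans _ _ _ _ hur hrp
    refine ⟨_, hin u hu hup, ?_, ?_⟩
    · exact ptrans _ _ _ _ (h1.mono r (hG.sub hr) u (hG.sub hu) hur hrp) hrs
    · exact ptrans _ _ _ _ (h1.mono r' (hG.sub hr') u (hG.sub hu) hur' hrp') hrt
  · intro E hE
    have hκγ : F.κ ≤ F.γ := F.g.kg.le
    have hPD : F.P F.κ ⊆ D (Iio F.κ) := (hPBD F).2.1 F.κ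
    have hPG : F.P F.κ ⊆ D (Iio F.γ) := hPD.trans (D_mono (Iio_subset_Iio hκγ))
    have hE0 : {r | r ∈ F.P F.κ ∧ F.Le F.κ r p' ∧ Ei F p' q' F.κ r ∈ E} ∈ F.M := by
      refine SOM.of_SD (S := F.M) F.g.kg (fun r hr => hPD hr.1) ?_
      have h3 := sdE hEIM F hp hq hl (le_refl F.κ)
      have h4 : SD F.γ F.M F.M (fun r _ => ∃ u ∈ D (Iio F.γ), (r ∈ F.P F.κ ∧ F.Le F.κ r p' ∧
          Ei F p' q' F.κ r = u) ∧ u ∈ E) := by
        refine SD.exT (P := fun r u _ => (r ∈ F.P F.κ ∧ F.Le F.κ r p' ∧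
          Ei F p' q' F.κ r = u) ∧ u ∈ E) ?_
        refine SD.and ?_ (SD.mem ST.id.fst (SV.par hE.inM))
        exact SD.app2 (R := fun r u => r ∈ F.P F.κ ∧ F.Le F.κ r p' ∧ Ei F p' q' F.κ r = u)
          h3 ST.id.snd ST.id.fst
      refine h4.congr fun r _ _ _ => ?_
      constructor
      · rintro ⟨u, -, ⟨h5, h6, h7⟩, h8⟩
        exact ⟨h5, h6, by rw [h7]; exact h8⟩
      · rintro ⟨h5, h6, h7⟩
        exact ⟨_, hPG (h1.mem r h5 h6).1, ⟨h5, h6, rfl⟩, h7⟩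
    obtain ⟨r, ⟨hr1, hr2, hr3⟩, hrG⟩ := (hGNF F G hG).2.2.1 p' hpG _ hE0 (fun r hr hrp => by
      obtain ⟨h3, h4⟩ := h1.mem r hr hrp
      obtain ⟨s, hs, hsr⟩ := hE.dense _ h3
      have hsP := hE.sub hs
      have hsq : F.Le F.κ s q' := ptrans _ _ _ _ hsr h4
      obtain ⟨h5, h6⟩ := h2.mem s hsP hsq
      refine ⟨Ei F q' p' F.κ s, ⟨h5, h6, ?_⟩, h5, ?_⟩
      · exact hE.opn s hs _ (h1.mem _ h5 h6).1 (h2.inv s hsP hsq).1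
      · exact ptrans _ _ _ _ (h2.mono _ h3 s hsP hsr h4) (h1.inv r hr hrp).1)
    exact ⟨_, hin r hrG hr2, hr3⟩

theorem img_img (hPRO : G_PRO)
    (h1 : EiP F p' q' F.κ) (h2 : EiP F q' p' F.κ) {G : Set T} (hG : F.Gen G) (hpG : p' ∈ G) :
    img F q' p' (img F p' q' G) = G := by
  obtain ⟨prefl, ptrans, -, -, -⟩ := hPRO F
  ext s
  constructor
  · rintro ⟨hs, r, ⟨hrP, t, ht, htp, htr⟩, hrq, hrs⟩
    obtain ⟨h3, h4⟩ := h1.mem t (hG.sub ht) htp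
    have h5 := h2.mono r hrP _ h3 htr hrq
    have h6 := (h1.inv t (hG.sub ht) htp).2
    exact hG.up t ht s hs (ptrans _ _ _ _ h6 (ptrans _ _ _ _ h5 hrs))
  · intro hs
    obtain ⟨r, hr, hrs, hrp⟩ := hG.dir s hs p' hpG
    obtain ⟨h3, h4⟩ := h1.mem r (hG.sub hr) hrp
    exact ⟨hG.sub hs, _, ⟨h3, r, hr, hrp, prefl _ _⟩, h4,
      ptrans _ _ _ _ (h1.inv r (hG.sub hr) hrp).1 hrs⟩

theorem sg_sub (hEIM : G_EIM) (hPRO : G_PRO) (hRES : G_RES) (hGNF : G_GNF) (hNMB : G_NMB)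
    (hPIM : G_PIM) (hPBD : G_PBD) (hEQV : G_EQV)
    (hp : p' ∈ F.P F.κ) (hq : q' ∈ F.P F.κ) (hl : ∀ i < F.κ, ln p' i = ln q' i)
    (h0 : ∀ j ≤ F.κ, EiP F p' q' j) {G : Set T} (hG : F.Gen G) (hpG : p' ∈ G) :
    SG F (img F p' q' G) ⊆ SG F G := by
  obtain ⟨prefl, ptrans, pdec, -, -⟩ := hPRO F
  rintro X ⟨c, ⟨hc1, hc2, i, hi, hc3⟩, rfl⟩
  have h1 := h0 F.κ le_rfl
  have hi1 := h0 i hi.le
  have hκγ : F.κ ≤ F.γ := F.g.kg.le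
  have hDκ : D (Iio F.κ) ⊆ D (Iio F.γ) := D_mono (Iio_subset_Iio hκγ)
  have hκ0 : 0 < F.κ := lt_of_le_of_lt zero_le F.g.wk
  obtain ⟨b, hb, hcb⟩ := dec_bdd hκ0 hc1
  obtain ⟨ρ, hρ, hPρ⟩ := (hPBD F).1 i hi
  have hρκ : ρ < F.κ := hρ.trans (F.e.lt i hi)
  have hPD : F.P i ⊆ D (Iio F.κ) := (hPBD F).2.1 i
  set τ : Set T := {z | ∃ y t, z = Tr.pr y t ∧ t ∈ F.P i ∧ F.Le i t p' ∧
    ∃ p ∈ F.P i, Tr.pr y p ∈ dec c ∧ F.Le i (Ei F p' q' i t) p} with hτ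
  have hfst : ∀ {y p : T}, Tr.pr y p ∈ dec c → y ∈ D (Iio b) := fun h => (pr_mem.1 (hcb h)).1
  have hτM : τ ∈ F.M := by
    refine SOM.of_SD (S := F.M) (d := max b ρ) ((max_lt hb hρκ).trans F.g.kg) ?_ ?_
    · rintro z ⟨y, t, rfl, ht, -, p, -, hyp, -⟩
      exact pr_mem.2 ⟨D_mono (Iio_subset_Iio (le_max_left _ _)) (hfst hyp),
        D_mono (Iio_subset_Iio (le_max_right _ _)) (hPρ ht)⟩
    · have h3 := sdE hEIM F hp hq hl hi.le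
      have h4 := sdLe hPIM F hi.le
      have hcM : dec c ∈ F.M := ⟨c, hDκ hc1, rfl⟩
      have hPM : F.P i ∈ F.M := (hPIM F).2.2 i hi.le
      have h5 : SD F.γ F.M F.M (fun z _ => z = .pr z.fst z.snd ∧ ∃ u ∈ D (Iio F.γ),
          (z.snd ∈ F.P i ∧ F.Le i z.snd p' ∧ Ei F p' q' i z.snd = u) ∧
          ∃ p ∈ D (Iio F.γ), p ∈ F.P i ∧ Tr.pr z.fst p ∈ dec c ∧
            (u ∈ D (Iio F.κ) ∧ p ∈ D (Iio F.κ) ∧ F.Le i u p)) := by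
        refine SD.and (SD.eq ST.id (ST.id.fst.pr ST.id.snd)) ?_
        refine SD.exT (P := fun z u _ =>
          (z.snd ∈ F.P i ∧ F.Le i z.snd p' ∧ Ei F p' q' i z.snd = u) ∧
          ∃ p ∈ D (Iio F.γ), p ∈ F.P i ∧ Tr.pr z.fst p ∈ dec c ∧
            (u ∈ D (Iio F.κ) ∧ p ∈ D (Iio F.κ) ∧ F.Le i u p)) ?_
        refine SD.and ?_ ?_
        · exact SD.app2 (R := fun r u => r ∈ F.P i ∧ F.Le i r p' ∧ Ei F p' q' i r = u)
            h3 ST.id.snd.snd ST.id.fst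
        · refine SD.exT (P := fun x p _ => p ∈ F.P i ∧ Tr.pr x.snd.fst p ∈ dec c ∧
            (x.fst ∈ D (Iio F.κ) ∧ p ∈ D (Iio F.κ) ∧ F.Le i x.fst p)) ?_
          refine SD.and (SD.mem ST.id.fst (SV.par hPM)) (SD.and ?_ ?_)
          · exact SD.mem (ST.id.snd.snd.fst.pr ST.id.fst) (SV.par hcM)
          · exact SD.app2 (R := fun u p => u ∈ D (Iio F.κ) ∧ p ∈ D (Iio F.κ) ∧ F.Le i u p)
              h4 ST.id.snd.fst ST.id.fst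
      refine h5.congr fun z _ _ _ => ?_
      constructor
      · rintro ⟨hz, u, -, ⟨h6, h7, h8⟩, p, -, h9, h10, -, -, h11⟩
        exact ⟨z.fst, z.snd, hz, h6, h7, p, h9, h10, by rw [h8]; exact h11⟩
      · rintro ⟨y, t, rfl, h6, h7, p, h8, h9, h10⟩
        have h11 := (hi1.mem t h6 h7).1
        exact ⟨rfl, _, hDκ (hPD h11), ⟨h6, h7, rfl⟩, p, hDκ (hPD h8), h8, h9, hPD h11, hPD h8, h10⟩
  have hev : evl (img F p' q' G) (dec c) = evl G τ := by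
    ext y
    constructor
    · rintro ⟨p, ⟨hpP, r, hr, hrp, hle⟩, hyp⟩
      obtain ⟨y', p0, hp0, h3⟩ := hc3 _ hyp
      injection h3 with _ h3
      subst h3
      have hrP := hG.sub hr
      obtain ⟨g1, -, -, -, -, g2, g3, -⟩ := (hRES F).1 r hrP i hi.le
      refine ⟨res r i, (hGNF F G hG).1 i hi r hr, y, res r i, rfl, g1, ?_, p, hp0, hyp, ?_⟩
      · exact ptrans _ _ _ _ g2 (pdec _ _ _ _ hi.le hrp)
      · rw [h1.rs r hrP hrp i hi.le hi.le]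
        obtain ⟨-, -, -, -, -, g4, -, -⟩ := (hRES F).1 _ (h1.mem r hrP hrp).1 i hi.le
        exact ptrans _ _ _ _ g4 (pdec _ _ _ _ hi.le hle)
    · rintro ⟨t0, ht0, y', t, h3, ht, htp, p, hpi, hyp, hle⟩
      injection h3 with h3 h4
      subst h3
      subst h4
      obtain ⟨r, hr, hrt, hrp⟩ := hG.dir t0 ht0 p' hpG
      have hrP := hG.sub hr
      refine ⟨p, ⟨(hPBD F).2.2.1 i F.κ hi.le hpi, r, hr, hrp, ?_⟩, hyp⟩
      have hz : ∀ x, i ≤ x → x < F.κ → ln p x = 0 := fun x hx _ => (hPBD F).2.2.2.2.1 i p hpi x hx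
      refine ((hEQV F).2.2 i F.κ hi.le _ _ hz).1 ?_
      obtain ⟨g1, -, -, -, -, g2, g3, -⟩ := (hRES F).1 r hrP i hi.le
      obtain ⟨-, -, -, -, -, -, g4, -⟩ := (hRES F).1 _ (h1.mem r hrP hrp).1 i hi.le
      rw [← h1.rs r hrP hrp i hi.le hi.le] at g4
      have g5 : F.Le i (res r i) t0 := ptrans _ _ _ _ g2 (pdec _ _ _ _ hi.le hrt)
      exact ptrans _ _ _ _ g4 (ptrans _ _ _ _ (hi1.mono t0 ht _ g1 g5 htp) hle)
  rw [hev]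
  refine (hNMB F G hG).1 τ hτM ⟨i, hi, ?_⟩ ⟨b, hb, ?_⟩
  · rintro z ⟨y, t, rfl, ht, -⟩
    exact ⟨y, t, ht, rfl⟩
  · rintro z ⟨y, t, rfl, -, -, p, -, hyp, -⟩
    exact hfst hyp

end

theorem thm (hEIM : G_EIM) (hPRO : G_PRO) (hRES : G_RES) (hGNF : G_GNF) (hNMB : G_NMB)
    (hPIM : G_PIM) (hPBD : G_PBD) (hEQV : G_EQV) : G_HGT := by
  intro F p' hp q' hq hl hEi G hG hpG
  have h1 := (hEi F.κ le_rfl).1
  have h2 := (hEi F.κ le_rfl).2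
  obtain ⟨hG', hqG⟩ := img_gen hEIM hPRO hGNF hPBD hp hq hl h1 h2 hG hpG
  refine ⟨_, hG', hqG, subset_antisymm ?_ ?_⟩
  · exact sg_sub hEIM hPRO hRES hGNF hNMB hPIM hPBD hEQV hp hq hl (fun j hj => (hEi j hj).1) hG hpG
  · have h3 := sg_sub hEIM hPRO hRES hGNF hNMB hPIM hPBD hEQV hq hp (fun i hi => (hl i hi).symm)
      (fun j hj => (hEi j hj).2) hG' hqG
    rwa [img_img hPRO h1 h2 hG hpG] at h3

end Pool.Agent.Helper17.OD.PkHGT
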